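import Pool.Agent.H559Z.Mix.Main

set_option autoImplicit false
open Filter Topology
open scoped Pointwise Real

namespace Pool.Agent.Results.MP_e3ece1_pr.Counterexample

open Pool.Agent.H559Z.Mix

/-- Negated form of Q1: for some `μ` and `ε > 0` there are arbitrarily large `q` coprime to `6`
such that both the base-2 and the base-3 walk are still `ε`-far from uniform modulo `q` at some
time `n ≥ (1+ε) log q / H(μ,a)`. -/
theorem result :
    ∃ μ : ℤ →₀ ℝ, (∀ x, 0 ≤ μ x) ∧ (μ.sum fun _ p => p) = 1 ∧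
      (μ.support - μ.support).gcd id = 1 ∧
      ∃ H : ℤ → ℝ,
        (∀ a ∈ ({2, 3} : Set ℤ), 0 < H a ∧
          Tendsto (fun n : ℕ => entropy (law μ a n) / n) atTop (𝓝 (H a))) ∧
        ∃ ε : ℝ, 0 < ε ∧ ∀ q₀ : ℕ, ∃ q : ℕ, ∃ _ : NeZero q, q₀ ≤ q ∧ Nat.gcd q 6 = 1 ∧
          ∀ a ∈ ({2, 3} : Set ℤ), ∃ n : ℕ,
            (1 + ε) * Real.log q / H a ≤ n ∧ ε < tvUnif (law μ a n) q := by
  refine ⟨mu0, ?_, ?_, ?_, fun _ => h0, ?_, ?_⟩
  · intro x; rw [mu0_apply]; split_ifs <;> norm_num
  · rw [mu0_sum]; norm_num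
  · rw [mu0_support]; decide
  · intro a ha
    have ha2 : 2 ≤ a := by rcases ha with rfl | rfl <;> norm_num
    refine ⟨h0_pos, tendsto_const_nhds.congr' ?_⟩
    filter_upwards [eventually_gt_atTop 0] with n hn
    rw [entropy_law a ha2]
    have : (n : ℝ) ≠ 0 := by exact_mod_cast hn.ne'
    field_simp
  · obtain ⟨C, hC⟩ := exists_nat_ge (2 * Real.log 6 / h0)
    have hh := h0_pos
    refine ⟨Real.exp (-(3 * π * C)) / 4, by positivity, fun q₀ => ?_⟩
    set ε := Real.exp (-(3 * π * C)) / 4 with hε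
    have hε0 : 0 < ε := by positivity
    have hε1 : ε ≤ 1 := by
      have : Real.exp (-(3 * π * C)) ≤ 1 := Real.exp_le_one_iff.2 (by
        have := Real.pi_pos
        have : 0 ≤ 3 * π * C := by positivity
        linarith)
      linarith
    -- m = 2k+3, r = 2^m - 1, s = (3^m - 1)/2
    have key : ∀ k : ℕ, ∃ r s : ℕ, 2 ^ (2 * k + 3) = r + 1 ∧ 3 ^ (2 * k + 3) = 2 * s + 1 ∧
        r % 6 = 1 ∧ s % 12 = 1 ∧ k + 2 ≤ r ∧ 2 ≤ s := by
      intro k
      induction k with
      | zero => exact ⟨7, 13, by norm_num, by norm_num, by norm_num, by norm_num, by norm_num,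
          by norm_num⟩
      | succ k ih =>
        obtain ⟨r, s, h1, h2, h3, h4, h5, h6⟩ := ih
        refine ⟨4 * r + 3, 9 * s + 4, ?_, ?_, by omega, by omega, by omega, by omega⟩
        · rw [show 2 * (k + 1) + 3 = (2 * k + 3) + 2 by ring, pow_add, h1]; ring
        · rw [show 2 * (k + 1) + 3 = (2 * k + 3) + 2 by ring, pow_add, h2]; ring
    obtain ⟨r, s, h1, h2, h3, h4, h5, h6⟩ := key q₀
    set m := 2 * q₀ + 3 with hm
    have hq0 : r * s ≠ 0 := Nat.mul_ne_zero (by omega) (by omega)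
    have : NeZero (r * s) := ⟨hq0⟩
    refine ⟨r * s, inferInstance, by nlinarith, ?_, ?_⟩
    · have hr : Nat.Coprime r 6 := by
        rw [Nat.Coprime, Nat.gcd_comm, Nat.gcd_rec, h3]; norm_num
      have hs : Nat.Coprime s 6 := by
        have : s % 6 = 1 := by omega
        rw [Nat.Coprime, Nat.gcd_comm, Nat.gcd_rec, this]; norm_num
      exact Nat.Coprime.mul_left hr hs
    · have hlog : (1 + ε) * Real.log ((r * s : ℕ) : ℝ) / h0 ≤ ((C * m : ℕ) : ℝ) := by
        have hle : r * s ≤ 6 ^ m := by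
          have : 6 ^ m = 2 ^ m * 3 ^ m := by rw [← mul_pow]; norm_num
          rw [this, h1, h2]; nlinarith
        have hpos : (0 : ℝ) < ((r * s : ℕ) : ℝ) := by exact_mod_cast Nat.pos_of_ne_zero hq0
        have hl : Real.log ((r * s : ℕ) : ℝ) ≤ m * Real.log 6 := by
          rw [← Real.log_pow]
          exact Real.log_le_log hpos (by exact_mod_cast hle)
        have hl0 : 0 ≤ Real.log ((r * s : ℕ) : ℝ) := Real.log_natCast_nonneg _
        rw [div_le_iff₀ hh] at hC ⊢
        push_cast at hl hl0 ⊢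
        have hm0 : (0 : ℝ) ≤ m := Nat.cast_nonneg _
        calc (1 + ε) * Real.log (r * s) ≤ 2 * (m * Real.log 6) := by nlinarith
          _ = m * (2 * Real.log 6) := by ring
          _ ≤ m * (C * h0) := mul_le_mul_of_nonneg_left hC hm0
          _ = C * m * h0 := by ring
      intro a ha
      refine ⟨C * m, hlog, ?_⟩
      have : Real.exp (-(3 * π * C)) ≤ 2 * tvUnif (law mu0 a (C * m)) (r * s) := by
        rcases ha with rfl | rfl
        · have h1' : (2 : ℤ) ^ m = r + 1 := by exact_mod_cast h1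
          refine slow 2 le_rfl m r s _ rfl (by omega) ?_ ?_ C
          · rw [h1']; simp
          · rw [h1']; omega
        · have h2' : (3 : ℤ) ^ m = 2 * s + 1 := by exact_mod_cast h2
          refine slow 3 (by norm_num) m s r _ (mul_comm _ _) h6 ?_ ?_ C
          · rw [h2']; simp
          · rw [h2']; omega
      have h7 : 0 < Real.exp (-(3 * π * C)) := Real.exp_pos _
      linarith

end Pool.Agent.Results.MP_e3ece1_pr.Counterexample
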